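import Pool.Agent.Results.MP_cd906c_nt.FibresOverMultiquadratic
import Pool.Agent.U80.MQ.Inf

/-!
# Infinite multiquadratic towers of order and rank zero, for an exact proportion of the twists of `X_0(49)`
# and of the fibres of an elliptic surface

`E_D : y² = x³ - 35 D² x - 98 D³` is the twist of `X_0(49)` by `D`, a squarefree product of primes
`≡ 1 mod 4`, which are split or inert in `ℚ(√-7)`. Let `K_∞(D) = ℚ(√q)`, where `q` runs through all the
primes `≡ 1 mod 4` that are inert in `ℚ(√-7)` and squares modulo all the split prime factors of `D`; these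
are infinitely many primes (a positive proportion), prime to `D` or not, and `[K_∞(D) : ℚ] = ∞`.

* For all products `M` of these primes: `E_D(ℚ)` is finite and `Ш(E_D/ℚ)[2] = 0` if and only if this is so
  for the twist of `E_D` by `M`.
* If this is the case, the rank part of the conjecture holds for `E_D` over ALL the number fields contained in
  `K_∞(D)`, with order and rank zero.
* This is the case for exactly the proportion `c = ∏_{i ≥ 0} (1 - 2^{-(2i+1)}) = 0.4194...` of the `D`, and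
  also for exactly the proportion `c` of the fibres of the surface `(t² + 1) y² = x³ - 35 x - 98` at the
  rational numbers `t = a / b` with `a² + b²` odd and squarefree, ordered by `a² + b²`; so it holds for a
  positive proportion of ALL rational numbers `t`.

The proof. The symmetric matrix of the quadratic symbols of the split prime factors of `D` with the diagonal
of the criterion of `MP_4a9ea6_nt/TwoPartTwistsX49` does not change when `D` is multiplied by such a prime
(`U80/MQ/Tow`); the passage to the number fields is that of `MP_cd906c_nt/FibresOverMultiquadratic`; the counts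
are those of `R413/SQ` and `U80/WQ`.
-/

set_option autoImplicit false

open scoped Classical

open WeierstrassCurve NumberField IsDedekindDomain

namespace Pool.Agent.Results.MP_32c55d_nt.InertTowersX49

open Pool.Agent.TH841.NF.D (Sha)

/-- the coefficient of `x` -/
def A (D : ℕ) : ℤ := -35 * (D : ℤ) ^ 2

/-- the constant coefficient -/
def B (D : ℕ) : ℤ := -98 * (D : ℤ) ^ 3

/-- the curve `y² = x³ - 35 D² x - 98 D³` over `K` -/
def curve (D : ℕ) (K : Type) [Field K] : WeierstrassCurve K :=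
  { a₁ := 0, a₂ := 0, a₃ := 0, a₄ := ((A D : ℤ) : K), a₆ := ((B D : ℤ) : K) }

/-- squarefree products of primes `≡ 1 mod 4` -/
def Class (D : ℕ) : Prop := Squarefree D ∧ ∀ p ∈ D.primeFactors, p % 4 = 1

/-- `E_D(ℚ)` is finite and `Ш(E_D/ℚ)` has no element of order two -/
def TrivialTwo (D : ℕ) : Prop :=
  Finite (curve D ℚ).toAffine.Point ∧ ∀ x : Sha (curve D ℚ), 2 • x = 0 → x = 0

/-- `a_v = q_v + 1 - #E(k_v) = q_v - #{(x, y) ∈ k_v² : y² = x³ + a x + b}` -/
noncomputable def trace {K : Type} [Field K] [NumberField K] (a b : ℤ)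
    (v : HeightOneSpectrum (𝓞 K)) : ℤ :=
  ((Ideal.absNorm v.asIdeal : ℕ) : ℤ) -
    ((Nat.card {x : (𝓞 K ⧸ v.asIdeal) × (𝓞 K ⧸ v.asIdeal) //
      x.2 ^ 2 = x.1 ^ 3 + (a : 𝓞 K ⧸ v.asIdeal) * x.1 + (b : 𝓞 K ⧸ v.asIdeal)} : ℕ) : ℤ)

/-- the Euler factor at `v` of `y² = x³ + a x + b`; it is `1` at the places that divide
`2 (4 a³ + 27 b²)` -/
noncomputable def factor {K : Type} [Field K] [NumberField K] (a b : ℤ) (s : ℂ)
    (v : HeightOneSpectrum (𝓞 K)) : ℂ :=
  if ((2 * (4 * a ^ 3 + 27 * b ^ 2) : ℤ) : 𝓞 K) ∈ v.asIdeal then 1 else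
    (1 - ((trace a b v : ℤ) : ℂ) * ((Ideal.absNorm v.asIdeal : ℕ) : ℂ) ^ (-s)
      + ((Ideal.absNorm v.asIdeal : ℕ) : ℂ) ^ (1 - 2 * s))⁻¹

/-- the rank part of the conjecture for `E_D` over `K`, with order and rank `0`: `E_D(K)` is finite, the
Euler product (without the factors at the places that divide `2 (4 A³ + 27 B²)`) is an entire function `Λ`,
the order of `Λ` at `1` is the rank of `E_D(K)`, and both are `0` -/
def RankZero (D : ℕ) (K : Type) [Field K] [NumberField K] : Prop :=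
  Finite (curve D K).toAffine.Point ∧ Module.finrank ℤ (curve D K).toAffine.Point = 0 ∧
    ∃ Λ : ℂ → ℂ, Differentiable ℂ Λ ∧
      (∀ s : ℂ, (3 : ℝ) / 2 < s.re → HasProd (factor (K := K) (A D) (B D) s) (Λ s)) ∧
      analyticOrderAt Λ 1 = ((Module.finrank ℤ (curve D K).toAffine.Point : ℕ) : ℕ∞) ∧ Λ 1 ≠ 0

/-- the squarefree part of `M D`, for squarefree `M` and `D` -/
def tw (M D : ℕ) : ℕ := M * D / Nat.gcd M D ^ 2

/-- the primes `q ≡ 1 mod 4`, inert in `ℚ(√-7)`, that are squares modulo the prime factors of `D` that split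
in `ℚ(√-7)` -/
def TowerPrime (D q : ℕ) : Prop :=
  q.Prime ∧ q % 4 = 1 ∧ (q % 7 = 3 ∨ q % 7 = 5 ∨ q % 7 = 6) ∧
    ∀ p ∈ D.primeFactors, (p % 7 = 1 ∨ p % 7 = 2 ∨ p % 7 = 4) → IsSquare (q : ZMod p)

/-- the field generated by the square roots of these primes -/
noncomputable def Tower (D : ℕ) : IntermediateField ℚ ℂ :=
  IntermediateField.adjoin ℚ {z : ℂ | ∃ q : ℕ, TowerPrime D q ∧ z ^ 2 = (q : ℂ)}

/-- the conjecture, with order and rank `0`, for `E_D` over all the number fields in the tower -/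
def AllFields (D : ℕ) : Prop :=
  ∀ K : IntermediateField ℚ ℂ, K ≤ Tower D → FiniteDimensional ℚ K → ∃ _ : NumberField K, RankZero D K

/-- the height `a² + b²` of the rational number `t = a / b` in lowest terms -/
def height (t : ℚ) : ℕ := t.num.natAbs ^ 2 + t.den ^ 2

/-- the numbers `D ≤ X` of the class with the property `Q` -/
noncomputable def Numbers (Q : ℕ → Prop) (X : ℕ) : Finset ℕ :=
  (Finset.Icc 1 X).filter fun D => Class D ∧ Q D

/-- the rational numbers `t` of height at most `X`, the height being odd and squarefree, with the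
property `Q` of the height -/
def Params (Q : ℕ → Prop) (X : ℕ) : Set ℚ :=
  {t | height t ≤ X ∧ Odd (height t) ∧ Squarefree (height t) ∧ Q (height t)}

/-- the constant `0.4194...` -/
noncomputable def cc : ℝ := ∏' i : ℕ, (1 - (1 / 2 : ℝ) ^ (2 * i + 1))

section proof

open Pool.Agent.Results.MP_696deb_nt.SumsOfTwoSquares (adm_of rank_of par_pat par_all height_pos
  box_fin box_card Pattern)
open Pool.Agent.Results.MP_cd906c_nt.FibresOverMultiquadratic (rankZero_of fib_eq)
open Pool.Agent.U80.MQ (tc NZ lf_K fin_K Om QD KK sub_KK det_symm adm_prod KK_inf QD_inf)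
open Pool.Agent.Results.MP_4a9ea6_nt.TwoPartTwistsX49 (Adm mat)
open Pool.Agent.R413.SQ (Cor.crit)

theorem tp_iff (D q : ℕ) : TowerPrime D q ↔ QD D q := by
  unfold TowerPrime QD Pool.Agent.R413.SQ.mk
  constructor
  · rintro ⟨h1, h2, h3, h4⟩
    refine ⟨h1, h2, ?_, fun p hp hm => h4 p hp ?_⟩
    · rw [if_neg (by omega)]
      norm_num
    · by_contra hc
      rw [if_neg hc] at hm
      exact absurd hm (by norm_num)
  · rintro ⟨h1, h2, h3, h4⟩
    refine ⟨h1, h2, ?_, fun p hp hm => h4 p hp (if_pos hm)⟩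
    have h5 : ¬ (q % 7 = 1 ∨ q % 7 = 2 ∨ q % 7 = 4) := by
      intro h
      exact h3 (if_pos h)
    have h6 : q % 7 ≠ 0 := by
      intro h
      have h7 : 7 ∣ q := Nat.dvd_of_mod_eq_zero h
      have h8 := (Nat.prime_dvd_prime_iff_eq (by norm_num) h1).1 h7
      omega
    omega

theorem tower_eq (D : ℕ) : Tower D = KK D := by
  unfold Tower KK
  simp only [tp_iff]

theorem crit {D : ℕ} (hA : Adm D) : TrivialTwo D ↔ (mat D).det ≠ 0 :=
  Pool.Agent.R413.SQ.Cor.crit hA

theorem tower_iff {D : ℕ} (hA : Adm D) {S : Finset ℕ} (hS : ∀ q ∈ S, TowerPrime D q) :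
    TrivialTwo (tw (∏ q ∈ S, q) D) ↔ TrivialTwo D := by
  have hS' : ∀ q ∈ S, QD D q := fun q hq => (tp_iff D q).1 (hS q hq)
  have h1 := Pool.Agent.R413.SQ.Joint.adm_tw (adm_prod hS').1 hA
  have e : tw (∏ q ∈ S, q) D = Pool.Agent.R413.SQ.Joint.tw (∏ q ∈ S, q) D := rfl
  rw [e, crit h1, crit hA]
  exact det_symm hA hS'

theorem all_of {D : ℕ} (hA : Adm D) (h : TrivialTwo D) : AllFields D := by
  intro K hK hfd
  rw [tower_eq] at hK
  obtain ⟨P, hP1, hP2⟩ := sub_KK K hK
  have hN : NumberField K := { to_charZero := inferInstance, to_finiteDimensional := hfd }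
  have hP' : ∀ q ∈ P, q.Prime := fun q hq => (hP1 q hq).1
  have hTT : ∀ S, S ⊆ P → TrivialTwo (Pool.Agent.U80.MQ.tw (∏ q ∈ S, q) D) := fun S hS =>
    (tower_iff hA fun q hq => (tp_iff D q).2 (hP1 q (hS hq))).2 h
  have hfin : Finite (curve D K).toAffine.Point :=
    fin_K hP' hA.1.ne_zero (fun S hS => (hTT S hS).1) K hP2
  obtain ⟨G, g1, g2, g3⟩ := lf_K P (fun q hq => ⟨hP' q hq, (hP1 q hq).2.1⟩) (D := D) hA.1
    (fun S hS => by
      have hD := Pool.Agent.R413.SQ.Joint.adm_tw (adm_prod fun q hq => hP1 q (hS hq)).1 hA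
      obtain ⟨-, F, f1, f2, f3, f4⟩ := rank_of hD (hTT S hS)
      refine ⟨F, f1, fun s hs => f2 s hs, ?_⟩
      rw [f4] at f3
      exact (f1.analyticAt 1).analyticOrderAt_eq_zero.1 f3) K hP2
  exact ⟨hN, rankZero_of hfin g1 (fun s hs => g2 s hs) g3⟩

theorem num_card {Q R : ℕ → Prop} (h : ∀ D, Adm D → (Q D ↔ R D)) (X : ℕ) :
    Pool.Agent.R413.SQ.Joint.num Q X = (Numbers R X).card := by
  unfold Pool.Agent.R413.SQ.Joint.num Numbers
  refine congrArg Finset.card (Finset.ext fun D => ?_)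
  rw [Finset.mem_filter, Finset.mem_filter]
  exact and_congr_right fun _ => and_congr_right fun hA => h D hA

theorem count_D : Filter.Tendsto (fun X : ℕ => ((Numbers TrivialTwo X).card : ℝ) /
    ((Numbers (fun _ => True) X).card : ℝ)) Filter.atTop (nhds cc) := by
  have h1 : Adm 1 := ⟨squarefree_one, fun p hp => by simp at hp⟩
  have h := Pool.Agent.R413.SQ.Joint.law (T := {1}) (V := {1}) (by
    intro M hM
    rw [Finset.mem_singleton] at hM
    rw [hM]
    exact h1) (Finset.Subset.refl _)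
  rw [Finset.sdiff_self, Finset.card_empty, pow_zero, mul_one, Finset.card_singleton, pow_one] at h
  have key : ∀ D, Adm D → ((∀ M ∈ ({1} : Finset ℕ),
      ((mat (Pool.Agent.R413.SQ.Joint.tw M D)).det ≠ 0 ↔ M ∈ ({1} : Finset ℕ))) ↔
        TrivialTwo D) := by
    intro D hA
    rw [crit hA]
    have e2 : Pool.Agent.R413.SQ.Joint.tw 1 D = D := by
      unfold Pool.Agent.R413.SQ.Joint.tw
      simp
    constructor
    · intro h2
      have h3 := (h2 1 (Finset.mem_singleton_self 1)).2 (Finset.mem_singleton_self 1)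
      rwa [e2] at h3
    · intro h2 M hM
      rw [Finset.mem_singleton] at hM
      rw [hM, e2]
      exact ⟨fun _ => Finset.mem_singleton_self 1, fun _ => h2⟩
  refine h.congr fun X => ?_
  rw [num_card key X, num_card (R := fun _ => True) (fun D _ => Iff.rfl) X]

theorem cl1 : ∀ M ∈ ({1} : Finset ℕ),
    Pool.Agent.Results.MP_696deb_nt.SumsOfTwoSquares.Class M := by
  intro M hM
  rw [Finset.mem_singleton] at hM
  rw [hM]
  exact ⟨squarefree_one, fun p hp => by simp at hp⟩

theorem pat1 (t : ℚ) : Pattern {1} {1} t ↔ TrivialTwo (height t) := by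
  have e2 : Pool.Agent.Results.MP_696deb_nt.SumsOfTwoSquares.tw 1
      (Pool.Agent.Results.MP_696deb_nt.SumsOfTwoSquares.height t) = height t := by
    unfold Pool.Agent.Results.MP_696deb_nt.SumsOfTwoSquares.tw
    rw [Nat.gcd_one_left, one_pow, Nat.div_one, one_mul]
    rfl
  unfold Pattern
  constructor
  · intro h
    have h1 := (h 1 (Finset.mem_singleton_self 1)).2 (Finset.mem_singleton_self 1)
    rw [e2] at h1
    exact h1
  · intro h M hM
    rw [Finset.mem_singleton] at hM
    rw [hM, e2]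
    exact ⟨fun _ => Finset.mem_singleton_self 1, fun _ => h⟩

theorem par1 (X : ℕ) : Params TrivialTwo X =
    Pool.Agent.Results.MP_696deb_nt.SumsOfTwoSquares.Params (Pattern {1} {1}) X := by
  ext t
  have := pat1 t
  constructor
  · rintro ⟨h1, h2, h3, h4⟩
    exact ⟨h1, h2, h3, this.2 h4⟩
  · rintro ⟨h1, h2, h3, h4⟩
    exact ⟨h1, h2, h3, this.1 h4⟩

theorem count_t : Filter.Tendsto (fun X : ℕ => ((Params TrivialTwo X).ncard : ℝ) /
    ((Params (fun _ => True) X).ncard : ℝ)) Filter.atTop (nhds cc) := by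
  have h := Pool.Agent.U80.WQ.joint_t cl1 (Finset.Subset.refl ({1} : Finset ℕ))
  rw [Finset.sdiff_self, Finset.card_empty, pow_zero, mul_one, Finset.card_singleton, pow_one] at h
  refine h.congr fun X => ?_
  rw [← par_pat cl1, ← par1]
  rfl

theorem pos_all : ∃ (c : ℝ) (X₀ : ℕ), 0 < c ∧ ∀ X : ℕ, X₀ ≤ X →
    c * X ≤ ((Params AllFields X).ncard : ℝ) := by
  obtain ⟨c, X₀, hc0, h⟩ := Pool.Agent.U80.WQ.joint_count cl1 (Finset.Subset.refl ({1} : Finset ℕ))
  refine ⟨c, X₀, hc0, fun X hX => ?_⟩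
  have h1 := h X hX
  rw [← par_pat cl1, ← par1] at h1
  have h3 : (Params TrivialTwo X).ncard ≤ (Params AllFields X).ncard := by
    refine Set.ncard_le_ncard (fun t ht => ⟨ht.1, ht.2.1, ht.2.2.1, ?_⟩)
      ((Pool.Agent.U80.WQ.finite_ht X).subset fun t ht => ht.1)
    exact all_of (adm_of ht.2.1 ht.2.2.1) ht.2.2.2
  exact h1.trans (by exact_mod_cast h3)

end proof

theorem result :
    (∀ D : ℕ, Class D → {q : ℕ | TowerPrime D q}.Infinite ∧ ¬ FiniteDimensional ℚ (Tower D) ∧
      (∀ S : Finset ℕ, (∀ q ∈ S, TowerPrime D q) →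
        (TrivialTwo (tw (∏ q ∈ S, q) D) ↔ TrivialTwo D)) ∧
      (TrivialTwo D → AllFields D)) ∧
    Filter.Tendsto (fun X : ℕ => ((Numbers TrivialTwo X).card : ℝ) /
      ((Numbers (fun _ => True) X).card : ℝ)) Filter.atTop (nhds cc) ∧
    (∀ (t : ℚ) (K : Type) [Field K] [CharZero K] (x y : K),
      ((t : K) ^ 2 + 1) * y ^ 2 = x ^ 3 - 35 * x - 98 ↔
        (curve (height t) K).toAffine.Equation (height t * x)
          ((height t : K) ^ 2 / t.den * y)) ∧
    Filter.Tendsto (fun X : ℕ => ((Params TrivialTwo X).ncard : ℝ) /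
      ((Params (fun _ => True) X).ncard : ℝ)) Filter.atTop (nhds cc) ∧
    (∀ t : ℚ, Odd (height t) → Squarefree (height t) → Class (height t)) ∧
    0.4194 < cc ∧ cc < 0.4195 ∧
    ∃ (c : ℝ) (X₀ : ℕ), 0 < c ∧ ∀ X : ℕ, X₀ ≤ X →
      c * ({t : ℚ | height t ≤ X}.ncard : ℝ) ≤ ((Params AllFields X).ncard : ℝ) ∧
      c * ({t : ℚ | max t.num.natAbs t.den ≤ X}.ncard : ℝ) ≤
        ({t : ℚ | max t.num.natAbs t.den ≤ X ∧ Odd (height t) ∧ Squarefree (height t) ∧
          AllFields (height t)}.ncard : ℝ) := by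
  have hc := Pool.Agent.Y948.CQ.t_C2.2.2.2
  refine ⟨fun D hD => ⟨?_, ?_, fun S hS => tower_iff hD hS, all_of hD⟩, count_D,
    fun t K _ _ x y => Pool.Agent.Results.MP_cd906c_nt.FibresOverMultiquadratic.fib_eq t x y,
    count_t, fun t h1 h2 => Pool.Agent.Results.MP_696deb_nt.SumsOfTwoSquares.adm_of h1 h2,
    hc.1, hc.2, ?_⟩
  · simp only [tp_iff]
    exact Pool.Agent.U80.MQ.QD_inf hD
  · rw [tower_eq]
    exact Pool.Agent.U80.MQ.KK_inf hD
  · obtain ⟨c, X₀, hc0, h⟩ := pos_all
    refine ⟨c / 6, X₀ + 1, by positivity, fun X hX => ⟨?_, ?_⟩⟩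
    · have h1 := h X (by omega)
      have h2 : ({t : ℚ | height t ≤ X}.ncard : ℝ) ≤ 3 * X := Pool.Agent.U80.WQ.total_t X
      refine le_trans ?_ h1
      have h3 : (0 : ℝ) ≤ X := Nat.cast_nonneg X
      calc c / 6 * ({t : ℚ | height t ≤ X}.ncard : ℝ) ≤ c / 6 * (3 * X) :=
            mul_le_mul_of_nonneg_left h2 (by positivity)
        _ ≤ c * X := by nlinarith
    · have hX1 : X ≤ X ^ 2 := Nat.le_self_pow (by norm_num) X
      have h1 := h (X ^ 2) (by omega)
      have h2 : ({t : ℚ | max t.num.natAbs t.den ≤ X}.ncard : ℝ) ≤ 6 * X ^ 2 :=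
        Pool.Agent.Results.MP_696deb_nt.SumsOfTwoSquares.box_card (by omega)
      have h3 : Params AllFields (X ^ 2) ⊆
          {t : ℚ | max t.num.natAbs t.den ≤ X ∧ Odd (height t) ∧ Squarefree (height t) ∧
            AllFields (height t)} := by
        rintro t ⟨h4, h5⟩
        refine ⟨?_, h5⟩
        have h6 : t.num.natAbs ^ 2 + t.den ^ 2 ≤ X ^ 2 := h4
        refine max_le ?_ ?_
        · exact (Nat.pow_le_pow_iff_left (by norm_num : (2 : ℕ) ≠ 0)).1 (by omega)
        · exact (Nat.pow_le_pow_iff_left (by norm_num : (2 : ℕ) ≠ 0)).1 (by omega)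
      have h4 := Set.ncard_le_ncard h3
        ((Pool.Agent.Results.MP_696deb_nt.SumsOfTwoSquares.box_fin X).subset fun t ht => ht.1)
      have h5 : ((Params AllFields (X ^ 2)).ncard : ℝ) ≤
          ({t : ℚ | max t.num.natAbs t.den ≤ X ∧ Odd (height t) ∧ Squarefree (height t) ∧
            AllFields (height t)}.ncard : ℝ) := by
        exact_mod_cast h4
      push_cast at h1
      refine le_trans ?_ (h1.trans h5)
      calc c / 6 * ({t : ℚ | max t.num.natAbs t.den ≤ X}.ncard : ℝ) ≤ c / 6 * (6 * X ^ 2) :=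
            mul_le_mul_of_nonneg_left h2 (by positivity)
        _ = c * X ^ 2 := by ring

end Pool.Agent.Results.MP_32c55d_nt.InertTowersX49
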