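import Pool.Agent.U693.CT.Core

/-!
# The rank conjecture over all number fields in infinite cubic towers generated by primes of ARBITRARY sets

`K` is the field of third roots of unity, `E_D : y² + D y = x³` (over `K` isomorphic to `x³ + y³ = D`).
For a set `T` of elements of `𝓞 K` let `K_T = K(∛(p / q) : p, q ∈ T)`, in a fixed algebraic closure. For
a set `T` of primary primes (prime elements `≡ 1 mod 3`) `Tower D T` says:

* `[K_A : K] = 3 ^ (#A - 1)` for the finite subsets `A ≠ ∅` of `T`;
* for ALL number fields `F` with `K ⊆ F ⊆ K_T` the rank part of the conjecture of Birch and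
  Swinnerton-Dyer holds for `E_D` over `F`, with order and rank `0`: the `L`-function of `E_D` over `F`
  (without the Euler factors at the places dividing `3 D` and some elements of `T`) is entire, its order
  at `s = 1` is the rank of `E_D(F)`, and both are `0`; moreover `[F : K]` kills `Ш(E_D/F)[3^∞]`;
* for all the products `M` of `3 m` (not necessarily different) elements of `T`, `m ≥ 0`, the group
  `E_{D M}(K)` is finite and `Ш(E_{D M}/K)[3^∞] = 0`.

Let `D` be good: squarefree, `≡ 1 mod 3`, of norm not `≡ 1 mod 9`, with `E_D(K)` finite and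
`Ш(E_D/K)[3^∞] = 0`; for instance any primary prime of norm not `≡ 1 mod 9`.

* INFINITE SETS: let `S` be ANY infinite set of primary primes. There is an infinite `T ⊆ S` such that
  `K_T` is of infinite degree over `K` and `Tower D T`, if and only if `D` is not a cube modulo infinitely
  many elements of `S`. So every infinite set of primary primes modulo which `D` is not a cube, however
  thin, contains an infinite set `T` such that the rank conjecture is true for `E_D` over all the number
  fields between `K` and the infinite extension `K_T`.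
* FINITE SETS: if `S` is ANY finite set of primary primes modulo which `D` is not a cube, with at least
  `N = 3 ^ (3 k + ω(D) + 1)` elements, `k ≥ 1`, then `Tower D A` for at least
  `(|S| choose k) / (N choose k)` of the `k`-subsets `A` of `S`: for a positive proportion, which does not
  depend on `S`, of the extensions `K_A / K` of degree `3 ^ (k - 1)`.

Proof. New: a Laplacian over `𝔽₃` with only the constants in its kernel is extended by a homogeneous set
of primes with ARBITRARY weights of sum zero (`U693/CT/Wgt`, `U693/CT/Ext`; for the weights `1` see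
`MP_e996df_nt/ThreePartArbitraryPrimeSets`); homogeneous sets exist by the theorem of Ramsey for three
colours; the fields between `K` and `K_T` are generated by cube roots of products of `3 m` elements of `T`
that are independent modulo cubes (`U693/CT/Kum`, `Sub`, `Tow`); for such fields the starting file
`MP_1a91b9_nt/FixedTowers` (theorem `perF` of `U854/TW`) reduces the assertions over `F` to the twists
`E_{D M}` over `K`.
-/

set_option autoImplicit false

open scoped Classical

namespace Pool.Agent.Results.MP_32c55d_nt.CubicTowersArbitraryPrimes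

open NumberField IsDedekindDomain WeierstrassCurve
open Pool.Agent.TH841.NF.D (Sha)

/-- The curve `E_D : y² + D y = x³`. -/
def curve {F : Type} [Field F] (D : F) : WeierstrassCurve F := ⟨0, 0, D, 0, 0⟩

section field

variable {F : Type} [Field F] [NumberField F]

/-- The number of elements of the residue field at `v`. -/
noncomputable def q (v : HeightOneSpectrum (𝓞 F)) : ℕ := Nat.card (𝓞 F ⧸ v.asIdeal)

/-- The number of points (with the point at infinity) of the curve `y² + D y = x³` over the residue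
field at `v`. -/
noncomputable def N (D : 𝓞 F) (v : HeightOneSpectrum (𝓞 F)) : ℕ :=
  Nat.card {P : (𝓞 F ⧸ v.asIdeal) × (𝓞 F ⧸ v.asIdeal) //
    P.2 ^ 2 + Ideal.Quotient.mk v.asIdeal D * P.2 = P.1 ^ 3} + 1

/-- The Euler factor `(1 - a_v q_v^{-s} + q_v^{1 - 2 s})⁻¹`, `a_v = q_v + 1 - N_v`. -/
noncomputable def factor (D : 𝓞 F) (s : ℂ) (v : HeightOneSpectrum (𝓞 F)) : ℂ :=
  (1 - ((q v : ℂ) + 1 - N D v) * (q v : ℂ) ^ (-s) + (q v : ℂ) ^ (1 - 2 * s))⁻¹

/-- For the curve `E_D : y² + D y = x³` over `F`: the Euler product over the places `v` of `F` that do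
not divide `B` converges for `Re s > 3/2`, it extends to an entire function `L`, the order of `L` at
`s = 1` is the rank of `E_D(F)`, `L(1) ≠ 0`, `E_D(F)` is finite, and `m` kills the `3`-primary part of
`Ш(E_D / F)`. -/
def RankZero (B D : 𝓞 F) (m : ℕ) : Prop :=
  (∃ L : ℂ → ℂ, Differentiable ℂ L ∧
    (∀ s : ℂ, 3 / 2 < s.re →
      HasProd (fun v : {v : HeightOneSpectrum (𝓞 F) // B ∉ v.asIdeal} => factor D s v.1) (L s)) ∧
    analyticOrderAt L 1 = ((Module.finrank ℤ (curve (D : F)).toAffine.Point : ℕ) : ℕ∞) ∧ L 1 ≠ 0) ∧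
  Finite (curve (D : F)).toAffine.Point ∧
  ∀ (k : ℕ) (y : Sha (curve (D : F))), 3 ^ k • y = 0 → m • y = 0

end field

variable {K : Type} [Field K] [NumberField K]

/-- prime elements `≡ 1 mod 3`; every prime element prime to `3` has exactly one such associate -/
def PrimaryPrime (q : 𝓞 K) : Prop := Prime q ∧ (3 : 𝓞 K) ∣ q - 1

/-- `a` is a cube modulo `q` -/
def CubeMod (q a : 𝓞 K) : Prop := ∃ b : 𝓞 K, q ∣ a - b ^ 3

/-- the number of the primary primes dividing `D` -/
noncomputable def omega (D : 𝓞 K) : ℕ := {q : 𝓞 K | PrimaryPrime q ∧ q ∣ D}.ncard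

/-- `E_D(K)` is finite and `Ш(E_D / K)[3^∞] = 0`. -/
def FiniteAndTrivial (D : 𝓞 K) : Prop :=
  Finite (curve (D : K)).toAffine.Point ∧ ∀ (k : ℕ) (y : Sha (curve (D : K))), 3 ^ k • y = 0 → y = 0

/-- `D` is squarefree, `≡ 1 mod 3`, of norm not `≡ 1 mod 9`, and `E_D(K)` is finite,
`Ш(E_D/K)[3^∞] = 0` -/
def Good (D : 𝓞 K) : Prop :=
  ((3 : 𝓞 K) ∣ D - 1 ∧ Squarefree D ∧ ¬ (9 : ℤ) ∣ Algebra.norm ℤ D - 1) ∧ FiniteAndTrivial D

/-- the field `K_T = K(∛(p / q) : p, q ∈ T)` inside an algebraic closure of `K` -/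
noncomputable def CubeField (T : Set (𝓞 K)) : IntermediateField K (AlgebraicClosure K) :=
  IntermediateField.adjoin K {z | ∃ p ∈ T, ∃ q ∈ T,
    z ^ 3 * algebraMap K (AlgebraicClosure K) (q : K) = algebraMap K (AlgebraicClosure K) (p : K)}

/-- The degrees of the fields `K_A`, `A ⊆ T` finite, are `3 ^ (#A - 1)`; for the products `M` of `3 m`
elements of `T` the group `E_{D M}(K)` is finite and `Ш(E_{D M}/K)[3^∞] = 0`; and for all the number
fields `F` between `K` and `K_T` there is a product `M` of elements of `T` such that the rank conjecture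
holds for `E_D` over `F`, with order and rank `0`, for the `L`-function without the factors at the places
dividing `3 D M`, and `[F : K]` kills `Ш(E_D/F)[3^∞]`. -/
def Tower (D : 𝓞 K) (T : Set (𝓞 K)) : Prop :=
  (∀ A : Finset (𝓞 K), A.Nonempty → (A : Set (𝓞 K)) ⊆ T →
    Module.finrank K (CubeField (A : Set (𝓞 K))) = 3 ^ (A.card - 1)) ∧
  (∀ M : Multiset (𝓞 K), (∀ p ∈ M, p ∈ T) → 3 ∣ M.card → FiniteAndTrivial (D * M.prod)) ∧
  ∀ F : IntermediateField K (AlgebraicClosure K), F ≤ CubeField T → FiniteDimensional K F →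
    ∃ (_ : NumberField F) (M : Multiset (𝓞 K)), (∀ p ∈ M, p ∈ T) ∧
      RankZero (algebraMap (𝓞 K) (𝓞 F) (3 * D * M.prod)) (algebraMap (𝓞 K) (𝓞 F) D)
        (Module.finrank K F)

section proof

open Pool.Agent.U693.CT
open Pool.Agent.U693.EisK (Gd3)

theorem finrank_fin {A : Type} [AddCommGroup A] [Finite A] : Module.finrank ℤ A = 0 := by
  have h : Module.IsTorsion ℤ A := by
    intro x
    have hn : (Nat.card A : ℤ) ≠ 0 := by exact_mod_cast Nat.card_pos.ne'
    refine ⟨⟨(Nat.card A : ℤ), mem_nonZeroDivisors_of_ne_zero hn⟩, ?_⟩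
    show (Nat.card A : ℤ) • x = 0
    rw [natCast_zsmul]
    exact card_nsmul_eq_zero'
  exact Module.finrank_eq_zero_iff_isTorsion.2 h

theorem ef_eq {F : Type} [Field F] [NumberField F] (c : 𝓞 F) (s : ℂ) (v : HeightOneSpectrum (𝓞 F)) :
    Pool.Agent.R432.V.ef c s v = factor c s v := by
  unfold factor Pool.Agent.R432.V.ef q N Pool.Agent.R432.V.qv Pool.Agent.R432.V.cn
  rw [Nat.cast_add, Nat.cast_one, add_sub_add_right_eq_sub]

theorem rankZero_of {F : Type} [Field F] [NumberField F] {B D : 𝓞 F} {m : ℕ}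
    (h1 : ∃ L : ℂ → ℂ, Differentiable ℂ L ∧
      (∀ s : ℂ, 3 / 2 < s.re →
        HasProd (fun v : {v : HeightOneSpectrum (𝓞 F) // B ∉ v.asIdeal} => factor D s v.1) (L s)) ∧
      L 1 ≠ 0) (h2 : Finite (curve (D : F)).toAffine.Point)
    (h3 : ∀ (k : ℕ) (y : Sha (curve (D : F))), 3 ^ k • y = 0 → m • y = 0) : RankZero B D m := by
  obtain ⟨L, l1, l2, l3⟩ := h1
  refine ⟨⟨L, l1, l2, ?_, l3⟩, h2, h3⟩
  rw [finrank_fin]
  exact (l1.analyticAt 1).analyticOrderAt_eq_zero.2 l3

theorem tower_of [IsCyclotomicExtension {3} ℚ K] {D : 𝓞 K} (hD : Good D) {T : Set (𝓞 K)}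
    (hne : T.Nonempty) (h : Cor D T) : Tower D T := by
  obtain ⟨h1, h2, h3⟩ := h
  obtain ⟨p₀, hp₀⟩ := hne
  refine ⟨fun A hA hAT => deg_cf hD.1 h1 h2 hAT hA, fun M hM hM3 => h3 _ ⟨M, hM, hM3, rfl⟩,
    fun F hF hfd => ?_⟩
  have hN : NumberField F := NumberField.of_module_finite K F
  obtain ⟨n, d, ⟨M, g1, -, g3⟩, g4, ⟨L, l1, l2, l3⟩, g5, g6⟩ := main_F hD.1 h1 h2 h3 hp₀ F hF hfd hN
  refine ⟨hN, M, g1, rankZero_of ⟨L, l1, fun s hs => ?_, l2⟩ g5 ?_⟩
  · rw [← g3]
    refine (l3 s hs).congr_fun fun v => ?_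
    exact (ef_eq _ _ _).symm
  · rw [g4]
    exact g6

end proof

/-- **Main theorem.** -/
theorem result (K : Type) [Field K] [NumberField K] [IsCyclotomicExtension {3} ℚ K] :
    (∀ q : 𝓞 K, PrimaryPrime q → ¬ (9 : ℤ) ∣ Algebra.norm ℤ q - 1 → Good q) ∧
    ∀ D : 𝓞 K, Good D →
      -- infinite sets
      (∀ S : Set (𝓞 K), (∀ q ∈ S, PrimaryPrime q) →
        ((∃ T ⊆ S, T.Infinite ∧ ¬ FiniteDimensional K (CubeField T) ∧ Tower D T) ↔
          {q ∈ S | ¬ CubeMod q D}.Infinite)) ∧
      -- finite sets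
      (∀ (k : ℕ) (S : Finset (𝓞 K)), 1 ≤ k → (∀ q ∈ S, PrimaryPrime q ∧ ¬ CubeMod q D) →
        3 ^ (3 * k + omega D + 1) ≤ S.card →
        S.card.choose k ≤ (3 ^ (3 * k + omega D + 1)).choose k *
          ((S.powersetCard k).filter fun A : Finset (𝓞 K) => Tower D (A : Set (𝓞 K))).card) := by
  obtain ⟨⟨j, hj⟩, -⟩ := Pool.Agent.Y455.CTK.jex K
  refine ⟨fun q hq hN => Pool.Agent.U693.EisK.prime_K j hj hq hN, fun D hD => ⟨fun S hS => ?_,
    fun k S hk hS hc => ?_⟩⟩
  · constructor
    · rintro ⟨T, hTS, hTi, -, hT⟩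
      refine Pool.Agent.U693.CT.inf_conv hD hS hTS hTi fun d hd => ?_
      obtain ⟨M, h1, h2, rfl⟩ := hd
      exact hT.2.1 M h1 h2
    · intro hI
      obtain ⟨T, hTS, hTi, hT⟩ := Pool.Agent.U693.CT.inf_cor hD hS hI
      exact ⟨T, hTS, hTi, Pool.Agent.U693.CT.cf_inf hD.1 hT.1 hT.2.1 hTi,
        tower_of hD hTi.nonempty hT⟩
  · refine (Pool.Agent.U693.CT.fin_cor hD k S hS hc).trans (Nat.mul_le_mul_left _ ?_)
    refine Finset.card_le_card ?_
    intro A hA
    rw [Finset.mem_filter] at hA ⊢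
    refine ⟨hA.1, tower_of hD ?_ hA.2⟩
    have h1 := (Finset.mem_powersetCard.1 hA.1).2
    have h2 : A.Nonempty := Finset.card_pos.1 (by omega)
    exact_mod_cast h2

end Pool.Agent.Results.MP_32c55d_nt.CubicTowersArbitraryPrimes
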