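import Pool.Agent.U120.MF.Fld
import Pool.Agent.U120.MF.Clique

/-!
# The multiquadratic fields `ℚ(√p : p ∈ T)` over which all the twists of `X_0(49)` have trivial 2-part

`E_D : y² = x³ - 35 D² x - 98 D³` is the twist of `X_0(49)` by `D`. Let `T` be any set of primes `≡ 1 mod 4`
(finite or infinite, split or inert in `ℚ(√-7)`). The following are equivalent:

* `E_D(ℚ)` is finite and `Ш(E_D/ℚ)[2] = 0` for the products `D` of ALL finite subsets of `T`;
* the same for the subsets with at most THREE elements;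
* `T` is a matching: `-7` is not a fourth power modulo any `p ∈ T`, the inert elements of `T` are squares
  modulo the split ones, and every split element is a nonresidue of at most one split element of `T`.

If this is so, the rank part of the conjecture holds, with order and rank `0`, for all these twists `E_D`
over ALL number fields contained in `ℚ(√p : p ∈ T)`, and the 2-primary part of `Ш` over these fields is
killed by the degree.

* EXTENSION. Let `T` be a finite matching with `n` elements, `s` of them split, `u` of the latter not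
  matched. Among the inert primes `l ≡ 1 mod 4` the proportion of those such that `T ∪ {l}` is a matching is
  `2 ^ (-s)`; among the split primes it is `(u + 1) / 2 ^ (n + 1)`.
* DENSE SETS. Let `S` be ANY set of primes `≡ 1 mod 4`. If the `p ∈ S` such that `-7` is not a fourth power
  modulo `p` have positive upper density in the primes, then `S` contains an infinite matching. If this is so
  for the split `p ∈ S`, it contains an infinite matching of split primes.
* THE DENSITY CANNOT BE OMITTED: there is an infinite set `S` of split primes, `-7` not a fourth power modulo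
  `p ∈ S`, such that `E_{pqr}(ℚ)` is infinite or `Ш(E_{pqr}/ℚ)[2] ≠ 0` for ALL different `p, q, r ∈ S`.

The criterion for a single `D` is that of the starting library (`MP_4a9ea6_nt/TwoPartTwistsX49`), the passage
from the twists to the fields is helper80's (`U80/MQ`), the joint law of the symbols of a prime is helper687's
(`U687/JT`). New here: the classification, the extension law, dense sets and cliques (`U120/MF`).
-/

set_option autoImplicit false

open scoped Classical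

open WeierstrassCurve NumberField IsDedekindDomain Filter Topology

namespace Pool.Agent.Results.MP_32c55d_nt.MatchingFields

open Pool.Agent.TH841.NF.D (Sha)

/-- the coefficient of `x` -/
def A (D : ℕ) : ℤ := -35 * (D : ℤ) ^ 2

/-- the constant coefficient -/
def B (D : ℕ) : ℤ := -98 * (D : ℤ) ^ 3

/-- the curve `y² = x³ - 35 D² x - 98 D³` over `K` -/
def curve (D : ℕ) (K : Type) [Field K] : WeierstrassCurve K :=
  { a₁ := 0, a₂ := 0, a₃ := 0, a₄ := ((A D : ℤ) : K), a₆ := ((B D : ℤ) : K) }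

/-- `E_D(ℚ)` is finite and `Ш(E_D/ℚ)` has no element of order two -/
def TrivialTwo (D : ℕ) : Prop :=
  Finite (curve D ℚ).toAffine.Point ∧ ∀ x : Sha (curve D ℚ), 2 • x = 0 → x = 0

/-- `a_v = q_v + 1 - #E(k_v) = q_v - #{(x, y) ∈ k_v² : y² = x³ + a x + b}` -/
noncomputable def trace {K : Type} [Field K] [NumberField K] (a b : ℤ)
    (v : HeightOneSpectrum (𝓞 K)) : ℤ :=
  ((Ideal.absNorm v.asIdeal : ℕ) : ℤ) -
    ((Nat.card {x : (𝓞 K ⧸ v.asIdeal) × (𝓞 K ⧸ v.asIdeal) //
      x.2 ^ 2 = x.1 ^ 3 + (a : 𝓞 K ⧸ v.asIdeal) * x.1 + (b : 𝓞 K ⧸ v.asIdeal)} : ℕ) : ℤ)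

/-- the Euler factor at `v` of `y² = x³ + a x + b`; it is `1` at the places that divide
`2 (4 a³ + 27 b²)` -/
noncomputable def factor {K : Type} [Field K] [NumberField K] (a b : ℤ) (s : ℂ)
    (v : HeightOneSpectrum (𝓞 K)) : ℂ :=
  if ((2 * (4 * a ^ 3 + 27 * b ^ 2) : ℤ) : 𝓞 K) ∈ v.asIdeal then 1 else
    (1 - ((trace a b v : ℤ) : ℂ) * ((Ideal.absNorm v.asIdeal : ℕ) : ℂ) ^ (-s)
      + ((Ideal.absNorm v.asIdeal : ℕ) : ℂ) ^ (1 - 2 * s))⁻¹

/-- the rank part of the conjecture for `E_D` over `K`, with order and rank `0`: `E_D(K)` is finite, the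
Euler product (without the factors at the places that divide `2 (4 A³ + 27 B²)`) is an entire function `Λ`,
the order of `Λ` at `1` is the rank of `E_D(K)`, and both are `0` -/
def RankZero (D : ℕ) (K : Type) [Field K] [NumberField K] : Prop :=
  Finite (curve D K).toAffine.Point ∧ Module.finrank ℤ (curve D K).toAffine.Point = 0 ∧
    ∃ Λ : ℂ → ℂ, Differentiable ℂ Λ ∧
      (∀ s : ℂ, (3 : ℝ) / 2 < s.re → HasProd (factor (K := K) (A D) (B D) s) (Λ s)) ∧
      analyticOrderAt Λ 1 = ((Module.finrank ℤ (curve D K).toAffine.Point : ℕ) : ℕ∞) ∧ Λ 1 ≠ 0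

/-- the elements of `Ш(E_D/K)` of order a power of two are killed by `[K : ℚ]` -/
def ShaKilled (D : ℕ) (K : Type) [Field K] [NumberField K] : Prop :=
  ∀ (k : ℕ) (x : Sha (curve D K)), 2 ^ k • x = 0 → Module.finrank ℚ K • x = 0

/-- the primes `≡ 1 mod 4` -/
def Prime4 (p : ℕ) : Prop := p.Prime ∧ p % 4 = 1

/-- `p` splits in `ℚ(√-7)` -/
def Split (p : ℕ) : Prop := IsSquare (-7 : ZMod p)

/-- `-7` is a fourth power modulo `p` -/
def Fourth (p : ℕ) : Prop := ∃ y : ZMod p, y ^ 4 = -7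

/-- the matchings -/
def Matching (T : Set ℕ) : Prop :=
  (∀ p ∈ T, ¬ Fourth p) ∧
  (∀ p ∈ T, Split p → ∀ l ∈ T, ¬ Split l → IsSquare (l : ZMod p)) ∧
  (∀ p ∈ T, Split p → ∀ q ∈ T, Split q → ∀ r ∈ T, Split r →
    ¬ IsSquare (q : ZMod p) → ¬ IsSquare (r : ZMod p) → q = r)

/-- the field generated by the square roots of the elements of `T` -/
noncomputable def Roots (T : Set ℕ) : IntermediateField ℚ ℂ :=
  IntermediateField.adjoin ℚ {z : ℂ | ∃ q ∈ T, z ^ 2 = (q : ℂ)}

/-- the number of the primes `p ≤ X`, `p ≡ 1 mod 4`, with the property `Q` -/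
noncomputable def count (Q : ℕ → Prop) (X : ℕ) : ℕ :=
  ((Finset.Icc 1 X).filter fun p => Prime4 p ∧ Q p).card

/-- the split elements of `T` -/
noncomputable def splitOf (T : Finset ℕ) : Finset ℕ := T.filter Split

/-- the split elements `p` of `T` such that all the split elements of `T` are squares modulo `p` -/
noncomputable def freeOf (T : Finset ℕ) : Finset ℕ :=
  T.filter fun p => Split p ∧ ∀ q ∈ T, Split q → IsSquare (q : ZMod p)

/-- `S` has positive upper density in the set of the primes -/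
def PositiveUpper (S : Set ℕ) : Prop := ∃ δ : ℝ, 0 < δ ∧ ∀ X₀ : ℕ, ∃ X : ℕ, X₀ ≤ X ∧
  δ * (Nat.primeCounting X : ℝ) ≤ (((Finset.Icc 1 X).filter fun p => p ∈ S).card : ℝ)

section proof

open Pool.Agent.U120.MF

theorem part_one {T : Set ℕ} (hT : ∀ p ∈ T, Prime4 p) :
    ((∀ U : Finset ℕ, (U : Set ℕ) ⊆ T → TrivialTwo (∏ p ∈ U, p)) ↔ Matching T) ∧
    ((∀ U : Finset ℕ, (U : Set ℕ) ⊆ T → U.card ≤ 3 → TrivialTwo (∏ p ∈ U, p)) ↔ Matching T) :=
  classify hT

theorem rankZero_of {D : ℕ} {K : Type} [Field K] [NumberField K]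
    (hfin : Finite (curve D K).toAffine.Point) {G : ℂ → ℂ} (g1 : Differentiable ℂ G)
    (g2 : ∀ s : ℂ, (3 : ℝ) / 2 < s.re → HasProd (factor (K := K) (A D) (B D) s) (G s))
    (g3 : G 1 ≠ 0) : RankZero D K := by
  have hrk : Module.finrank ℤ (curve D K).toAffine.Point = 0 := Pool.Agent.U80.MQ.finrank_fin
  refine ⟨hfin, hrk, G, g1, g2, ?_, g3⟩
  rw [hrk]
  exact (g1.analyticAt 1).analyticOrderAt_eq_zero.2 g3

theorem part_fields {T : Set ℕ} (hT : ∀ p ∈ T, Prime4 p) (hM : Matching T) {U : Finset ℕ}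
    (hU : (U : Set ℕ) ⊆ T) (K : IntermediateField ℚ ℂ) (hK : K ≤ Roots T)
    (hfd : FiniteDimensional ℚ K) :
    ∃ _ : NumberField K, RankZero (∏ p ∈ U, p) K ∧ ShaKilled (∏ p ∈ U, p) K := by
  have hN : NumberField K := { to_charZero := inferInstance, to_finiteDimensional := hfd }
  obtain ⟨h1, ⟨G, g1, g2, g3⟩, h3⟩ := fields hT hM hU K hK
  exact ⟨hN, rankZero_of h1 g1 (fun s hs => g2 s hs) g3, fun k x hx => h3 k x hx⟩

theorem card_iff {s : Finset ℕ} {P Q : ℕ → Prop} [DecidablePred P] [DecidablePred Q]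
    (h : ∀ x, P x ↔ Q x) : (s.filter P).card = (s.filter Q).card :=
  congrArg Finset.card (Finset.ext fun x => by rw [Finset.mem_filter, Finset.mem_filter, h])

theorem count_eq (Q : ℕ → Prop) (X : ℕ) {R : ℕ → Prop} [DecidablePred R]
    (h : ∀ l, R l ↔ l.Prime ∧ l % 4 = 1 ∧ Q l) :
    ((Finset.Icc 1 X).filter R).card = count Q X := by
  unfold count
  refine card_iff fun l => ?_
  rw [h, ← and_assoc]
  exact Iff.rfl

theorem part_inert (T : Finset ℕ) (hT : ∀ p ∈ T, Prime4 p) (hM : Matching (T : Set ℕ)) :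
    Tendsto (fun X : ℕ => (count (fun l => ¬ Split l ∧ Matching (insert l (T : Set ℕ))) X : ℝ) /
      (count (fun l => ¬ Split l) X : ℝ)) atTop (𝓝 (1 / 2 ^ (splitOf T).card)) := by
  refine (ext_inert T hT hM).congr fun X => ?_
  exact congrArg₂ (fun a b : ℕ => (a : ℝ) / b)
    (count_eq (fun l => ¬ Split l ∧ Matching (insert l (T : Set ℕ))) X fun _ => Iff.rfl)
    (count_eq (fun l => ¬ Split l) X fun _ => Iff.rfl)

theorem part_split (T : Finset ℕ) (hT : ∀ p ∈ T, Prime4 p) (hM : Matching (T : Set ℕ)) :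
    Tendsto (fun X : ℕ => (count (fun l => Split l ∧ Matching (insert l (T : Set ℕ))) X : ℝ) /
      (count Split X : ℝ)) atTop (𝓝 ((((freeOf T).card + 1 : ℕ) : ℝ) / 2 ^ (T.card + 1))) := by
  have e : (freeOf T).card = (T.filter fun q => Spl q ∧ Free T q).card := card_iff fun _ => Iff.rfl
  rw [e]
  refine (ext_split T hT hM).congr fun X => ?_
  exact congrArg₂ (fun a b : ℕ => (a : ℝ) / b)
    (count_eq (fun l => Split l ∧ Matching (insert l (T : Set ℕ))) X fun _ => Iff.rfl)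
    (count_eq Split X fun _ => Iff.rfl)

theorem matching_indep {T : Set ℕ} (hT : ∀ p ∈ T, Prime4 p ∧ Split p ∧ ¬ Fourth p)
    (h : ∀ p ∈ T, ∀ q ∈ T, p < q → IsSquare (q : ZMod p)) : Matching T := by
  have hall : ∀ p ∈ T, ∀ q ∈ T, IsSquare (q : ZMod p) := by
    intro p hp q hq
    rcases lt_trichotomy p q with h1 | h1 | h1
    · exact h p hp q hq h1
    · rw [h1]
      exact self_sq q
    · rw [rec4 (hT p hp).1 (hT q hq).1]
      exact h q hq p hp h1
  exact ⟨fun p hp => (hT p hp).2.2, fun p hp _ l hl _ => hall p hp l hl,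
    fun p hp _ q hq _ r _ _ h1 _ => absurd (hall p hp q hq) h1⟩

theorem dense_split {S : Set ℕ} (hS : ∀ p ∈ S, Prime4 p)
    (h : PositiveUpper {p | p ∈ S ∧ Split p ∧ ¬ Fourth p}) :
    ∃ T ⊆ S, T.Infinite ∧ (∀ p ∈ T, Split p) ∧ Matching T := by
  obtain ⟨T, h1, h2, h3⟩ := dense (A := {p | p ∈ S ∧ Split p ∧ ¬ Fourth p})
    (fun p hp => ⟨hS p hp.1, hp.2.1⟩) h
  exact ⟨T, fun p hp => (h1 hp).1, h2, fun p hp => (h1 hp).2.1,
    matching_indep (fun p hp => ⟨hS p (h1 hp).1, (h1 hp).2⟩) h3⟩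

theorem upper_sub {A B : Set ℕ} (h : A ⊆ B) (hA : PositiveUpper A) : PositiveUpper B := by
  obtain ⟨δ, hδ, h1⟩ := hA
  refine ⟨δ, hδ, fun X₀ => ?_⟩
  obtain ⟨X, hX, h2⟩ := h1 X₀
  exact ⟨X, hX, h2.trans (by exact_mod_cast cn_mono h X)⟩

theorem upper_fin {A F : Set ℕ} (hF : F.Finite) (hA : PositiveUpper (A ∪ F)) : PositiveUpper A := by
  obtain ⟨δ, hδ, h1⟩ := hA
  refine ⟨δ / 2, by positivity, fun X₀ => ?_⟩
  obtain ⟨X₁, h2⟩ := pc_large ((hF.toFinset.card : ℝ) / (δ / 2))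
  obtain ⟨X, hX, h3⟩ := h1 (max X₀ X₁)
  refine ⟨X, le_trans (le_max_left _ _) hX, ?_⟩
  have h4 := h2 X (le_trans (le_max_right _ _) hX)
  rw [div_lt_iff₀ (by positivity)] at h4
  have h5 : ((Finset.Icc 1 X).filter fun p => p ∈ A ∪ F).card ≤
      ((Finset.Icc 1 X).filter fun p => p ∈ A).card + hF.toFinset.card := by
    refine le_trans (Finset.card_le_card fun p hp => ?_) (Finset.card_union_le _ _)
    rw [Finset.mem_filter] at hp
    rw [Finset.mem_union, Finset.mem_filter, hF.mem_toFinset]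
    rcases hp.2 with h6 | h6
    · exact Or.inl ⟨hp.1, h6⟩
    · exact Or.inr h6
  have h6 : (((Finset.Icc 1 X).filter fun p => p ∈ A ∪ F).card : ℝ) ≤
      (((Finset.Icc 1 X).filter fun p => p ∈ A).card : ℝ) + hF.toFinset.card := by
    exact_mod_cast h5
  have h7 : δ * (Nat.primeCounting X : ℝ) ≤
      (((Finset.Icc 1 X).filter fun p => p ∈ A).card : ℝ) + hF.toFinset.card := by
    refine h3.trans (le_trans (le_of_eq ?_) h6)
    congr
  linarith

theorem dense_all {S : Set ℕ} (hS : ∀ p ∈ S, Prime4 p)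
    (h : PositiveUpper {p | p ∈ S ∧ ¬ Fourth p}) :
    ∃ T ⊆ S, T.Infinite ∧ Matching T := by
  by_cases hf : {p | p ∈ S ∧ ¬ Split p}.Finite
  · have h1 : PositiveUpper {p | p ∈ S ∧ Split p ∧ ¬ Fourth p} := by
      refine upper_fin hf (upper_sub (fun p hp => ?_) h)
      by_cases hs : Split p
      · exact Or.inl ⟨hp.1, hs, hp.2⟩
      · exact Or.inr ⟨hp.1, hs⟩
    obtain ⟨T, g1, g2, -, g3⟩ := dense_split hS h1
    exact ⟨T, g1, g2, g3⟩
  · exact ⟨{p | p ∈ S ∧ ¬ Split p}, fun p hp => hp.1, hf,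
      fun p hp => not_fourth hp.2, fun p hp sp => absurd sp hp.2, fun p hp sp => absurd sp hp.2⟩

theorem triple {S : Set ℕ} (h1 : ∀ p ∈ S, Prime4 p ∧ Split p ∧ ¬ Fourth p)
    (h2 : ∀ p ∈ S, ∀ q ∈ S, p ≠ q → ¬ IsSquare (q : ZMod p)) {p q r : ℕ} (hp : p ∈ S) (hq : q ∈ S)
    (hr : r ∈ S) (hpq : p ≠ q) (hpr : p ≠ r) (hqr : q ≠ r) : ¬ TrivialTwo (p * q * r) :=
  triple_bad (h1 p hp) (h1 q hq) (h1 r hr) hpq hpr hqr (h2 p hp q hq hpq) (h2 p hp r hr hpr)

end proof

/-- **Theorem.** -/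
theorem result :
    -- the classification, and the fields
    (∀ T : Set ℕ, (∀ p ∈ T, Prime4 p) →
      ((∀ U : Finset ℕ, (U : Set ℕ) ⊆ T → TrivialTwo (∏ p ∈ U, p)) ↔ Matching T) ∧
      ((∀ U : Finset ℕ, (U : Set ℕ) ⊆ T → U.card ≤ 3 → TrivialTwo (∏ p ∈ U, p)) ↔ Matching T) ∧
      (Matching T → ∀ U : Finset ℕ, (U : Set ℕ) ⊆ T → ∀ K : IntermediateField ℚ ℂ, K ≤ Roots T →
        FiniteDimensional ℚ K →
        ∃ _ : NumberField K, RankZero (∏ p ∈ U, p) K ∧ ShaKilled (∏ p ∈ U, p) K) ∧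
      (T.Infinite → ¬ FiniteDimensional ℚ (Roots T))) ∧
    -- the primes which extend a finite matching
    (∀ T : Finset ℕ, (∀ p ∈ T, Prime4 p) → Matching (T : Set ℕ) →
      Tendsto (fun X : ℕ => (count (fun l => ¬ Split l ∧ Matching (insert l (T : Set ℕ))) X : ℝ) /
        (count (fun l => ¬ Split l) X : ℝ)) atTop (𝓝 (1 / 2 ^ (splitOf T).card)) ∧
      Tendsto (fun X : ℕ => (count (fun l => Split l ∧ Matching (insert l (T : Set ℕ))) X : ℝ) /
        (count Split X : ℝ)) atTop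
        (𝓝 ((((freeOf T).card + 1 : ℕ) : ℝ) / 2 ^ (T.card + 1)))) ∧
    -- dense sets of primes
    (∀ S : Set ℕ, (∀ p ∈ S, Prime4 p) →
      (PositiveUpper {p | p ∈ S ∧ ¬ Fourth p} → ∃ T ⊆ S, T.Infinite ∧ Matching T) ∧
      (PositiveUpper {p | p ∈ S ∧ Split p ∧ ¬ Fourth p} →
        ∃ T ⊆ S, T.Infinite ∧ (∀ p ∈ T, Split p) ∧ Matching T)) ∧
    -- the density cannot be omitted
    (∃ S : Set ℕ, S.Infinite ∧ (∀ p ∈ S, Prime4 p ∧ Split p ∧ ¬ Fourth p) ∧
      ∀ p ∈ S, ∀ q ∈ S, ∀ r ∈ S, p ≠ q → p ≠ r → q ≠ r → ¬ TrivialTwo (p * q * r)) := by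
  refine ⟨fun T hT => ⟨(part_one hT).1, (part_one hT).2,
    fun hM U hU K hK hfd => part_fields hT hM hU K hK hfd,
    fun hinf => Pool.Agent.U120.MF.KT_inf hT hinf⟩,
    fun T hT hM => ⟨part_inert T hT hM, part_split T hT hM⟩,
    fun S hS => ⟨dense_all hS, dense_split hS⟩, ?_⟩
  obtain ⟨S, h1, h2, h3⟩ := Pool.Agent.U120.MF.clique
  exact ⟨S, h1, h2, fun p hp q hq r hr hpq hpr hqr => triple h2 h3 hp hq hr hpq hpr hqr⟩

end Pool.Agent.Results.MP_32c55d_nt.MatchingFields
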