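import Pool.Agent.U120.MF.Fld
import Pool.Agent.U687.NO.Match

/-!
# The rank conjecture over the multiquadratic fields `ℚ(√p : p ∣ m)`, ordered by `m`: exact proportions

`E_d : y² = x³ - 35 d² x - 98 d³` is the quadratic twist by `d` of `X_0(49)`. Fix `K ≥ 1` and let `m` run, in
the natural order, through ALL the squarefree numbers with exactly `K` prime factors, all `1` modulo `4`
(split or inert in `ℚ(√-7)`). Let `F_m = ℚ(√p : p ∣ m)`.

* For all these `m`: if `E_d(ℚ)` is finite and `Ш(E_d/ℚ)[2] = 0` for all the `2^K` divisors `d` of `m`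
  (`AllTwists m`), then for all `d ∣ m` and ALL number fields `k` contained in `F_m` the rank conjecture holds
  for `E_d` over `k`, with order and rank zero, `E_d(k)` is finite, and the 2-primary part of `Ш(E_d/k)` is
  killed by `[k : ℚ]`; in particular for `X_0(49)` itself over `F_m`. If not, then `E_d(ℚ)` is infinite or
  `Ш(E_d/ℚ)[2] ≠ 0` for some `d ∣ m` with at most three prime factors.
* EXACT PROPORTION. For every `s ≤ K` the proportion of the `m ≤ X` which have exactly `s` split prime
  factors and `AllTwists m` tends, for `X → ∞`, to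

    `share K s = (K choose s) · I(s) / 2 ^ (K + s + (K choose 2) - (K - s choose 2))`,

  where `I(s)` is the number of the involutions in the symmetric group of degree `s`. So the proportion of
  the `m` with `AllTwists m` tends to `total K = ∑_{s ≤ K} share K s`; it is at least `2 ^ (-K)`, and
  `total 1 = 3/4`, `total 2 = 7/16`, `total 3 = 13/64`.

The criterion for a single `D` is that of the starting library (`MP_4a9ea6_nt/TwoPartTwistsX49`), the passage
from the twists to the fields and the classification by matchings are those of helper80 and helper120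
(`U80/MQ`, `U120/MF`, `MP_32c55d_nt/MatchingFields`), which give no count of the fields. New: all `K` primes
vary at once, in the natural order. The matchings are counted by configurations (the set of the split
places and an involution); each configuration is a product of functions of one prime and of factors
`(1 ± (p/q)) / 2`; the terms with a symbol of two variable primes have the mean zero, by a bilinear
estimate for the Jacobi symbol over the hyperbola `p q ≤ Z` cut in short blocks (`U687/NO`).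
-/

set_option autoImplicit false

open scoped Classical

open WeierstrassCurve NumberField IsDedekindDomain Filter Topology

namespace Pool.Agent.Results.MP_32c55d_nt.MultiquadraticFieldsBySize

open Pool.Agent.TH841.NF.D (Sha)

/-- the coefficient of `x` -/
def A (D : ℕ) : ℤ := -35 * (D : ℤ) ^ 2

/-- the constant coefficient -/
def B (D : ℕ) : ℤ := -98 * (D : ℤ) ^ 3

/-- the curve `y² = x³ - 35 D² x - 98 D³` over `K` -/
def curve (D : ℕ) (K : Type) [Field K] : WeierstrassCurve K :=
  { a₁ := 0, a₂ := 0, a₃ := 0, a₄ := ((A D : ℤ) : K), a₆ := ((B D : ℤ) : K) }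

/-- `E_D(ℚ)` is finite and `Ш(E_D/ℚ)` has no element of order two -/
def TrivialTwo (D : ℕ) : Prop :=
  Finite (curve D ℚ).toAffine.Point ∧ ∀ x : Sha (curve D ℚ), 2 • x = 0 → x = 0

/-- `a_v = q_v + 1 - #E(k_v) = q_v - #{(x, y) ∈ k_v² : y² = x³ + a x + b}` -/
noncomputable def trace {K : Type} [Field K] [NumberField K] (a b : ℤ)
    (v : HeightOneSpectrum (𝓞 K)) : ℤ :=
  ((Ideal.absNorm v.asIdeal : ℕ) : ℤ) -
    ((Nat.card {x : (𝓞 K ⧸ v.asIdeal) × (𝓞 K ⧸ v.asIdeal) //
      x.2 ^ 2 = x.1 ^ 3 + (a : 𝓞 K ⧸ v.asIdeal) * x.1 + (b : 𝓞 K ⧸ v.asIdeal)} : ℕ) : ℤ)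

/-- the Euler factor at `v` of `y² = x³ + a x + b`; it is `1` at the places that divide
`2 (4 a³ + 27 b²)` -/
noncomputable def factor {K : Type} [Field K] [NumberField K] (a b : ℤ) (s : ℂ)
    (v : HeightOneSpectrum (𝓞 K)) : ℂ :=
  if ((2 * (4 * a ^ 3 + 27 * b ^ 2) : ℤ) : 𝓞 K) ∈ v.asIdeal then 1 else
    (1 - ((trace a b v : ℤ) : ℂ) * ((Ideal.absNorm v.asIdeal : ℕ) : ℂ) ^ (-s)
      + ((Ideal.absNorm v.asIdeal : ℕ) : ℂ) ^ (1 - 2 * s))⁻¹

/-- the rank part of the conjecture for `E_D` over `K`, with order and rank `0`: `E_D(K)` is finite, the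
Euler product (without the factors at the places that divide `2 (4 A³ + 27 B²)`) is an entire function `Λ`,
the order of `Λ` at `1` is the rank of `E_D(K)`, and both are `0` -/
def RankZero (D : ℕ) (K : Type) [Field K] [NumberField K] : Prop :=
  Finite (curve D K).toAffine.Point ∧ Module.finrank ℤ (curve D K).toAffine.Point = 0 ∧
    ∃ Λ : ℂ → ℂ, Differentiable ℂ Λ ∧
      (∀ s : ℂ, (3 : ℝ) / 2 < s.re → HasProd (factor (K := K) (A D) (B D) s) (Λ s)) ∧
      analyticOrderAt Λ 1 = ((Module.finrank ℤ (curve D K).toAffine.Point : ℕ) : ℕ∞) ∧ Λ 1 ≠ 0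

/-- the elements of `Ш(E_D/K)` of order a power of two are killed by `[K : ℚ]` -/
def ShaKilled (D : ℕ) (K : Type) [Field K] [NumberField K] : Prop :=
  ∀ (k : ℕ) (x : Sha (curve D K)), 2 ^ k • x = 0 → Module.finrank ℚ K • x = 0

/-- the field `F_m` generated by the square roots of the prime factors of `m` -/
noncomputable def Roots (m : ℕ) : IntermediateField ℚ ℂ :=
  IntermediateField.adjoin ℚ {z : ℂ | ∃ p ∈ m.primeFactors, z ^ 2 = (p : ℂ)}

/-- all the twists by the divisors of `m` have trivial 2-part -/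
def AllTwists (m : ℕ) : Prop := ∀ d : ℕ, d ∣ m → TrivialTwo d

/-- the rank part of the conjecture, with order and rank zero, for the twists by the divisors of `m`, over
all the number fields contained in `F_m` -/
def RankConjecture (m : ℕ) : Prop :=
  ∀ d : ℕ, d ∣ m → ∀ k : IntermediateField ℚ ℂ, k ≤ Roots m → FiniteDimensional ℚ k →
    ∃ _ : NumberField k, RankZero d k ∧ ShaKilled d k

/-- squarefree with all prime factors `≡ 1 mod 4` -/
def Class (m : ℕ) : Prop := Squarefree m ∧ ∀ p ∈ m.primeFactors, p % 4 = 1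

/-- the `m ≤ X` in the class with exactly `K` prime factors -/
noncomputable def numbers (K X : ℕ) : Finset ℕ :=
  (Finset.Icc 1 X).filter fun m => Class m ∧ m.primeFactors.card = K

/-- the share of those with the property `Q` -/
noncomputable def proportion (K : ℕ) (Q : ℕ → Prop) (X : ℕ) : ℝ :=
  (((numbers K X).filter Q).card : ℝ) / ((numbers K X).card : ℝ)

/-- the number of the prime factors of `m` which split in `ℚ(√-7)` -/
noncomputable def splitNumber (m : ℕ) : ℕ := (m.primeFactors.filter fun p => IsSquare (-7 : ZMod p)).card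

/-- the number of the involutions (the identity included) in the symmetric group of degree `s` -/
noncomputable def involutions (s : ℕ) : ℕ := Nat.card {σ : Equiv.Perm (Fin s) // σ * σ = 1}

/-- the share of the `m` with `s` split prime factors and `AllTwists m` -/
noncomputable def share (K s : ℕ) : ℝ :=
  ((K.choose s * involutions s : ℕ) : ℝ) / 2 ^ (K + s + (K.choose 2 - (K - s).choose 2))

/-- the share of the `m` with `AllTwists m` -/
noncomputable def total (K : ℕ) : ℝ := ∑ s ∈ Finset.range (K + 1), share K s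

section proof

open Pool.Agent.U120.MF
open Pool.Agent.U687.NO (Ms mem_Ms Iv Ps match_m card_as_sum)

theorem p4_of {m : ℕ} (h : Class m) : ∀ p ∈ (m.primeFactors : Set ℕ), P4 p := fun p hp =>
  ⟨Nat.prime_of_mem_primeFactors (Finset.mem_coe.1 hp), h.2 p (Finset.mem_coe.1 hp)⟩

theorem prod_dvd {m : ℕ} (h : Class m) {U : Finset ℕ} (hU : (U : Set ℕ) ⊆ (m.primeFactors : Set ℕ)) :
    ∏ p ∈ U, p ∣ m := by
  have h1 := Finset.prod_dvd_prod_of_subset U m.primeFactors (fun p => p) (Finset.coe_subset.1 hU)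
  rwa [Nat.prod_primeFactors_of_squarefree h.1] at h1

theorem of_dvd {m d : ℕ} (h : Class m) (hd : d ∣ m) :
    ((d.primeFactors : Finset ℕ) : Set ℕ) ⊆ (m.primeFactors : Set ℕ) ∧ ∏ p ∈ d.primeFactors, p = d :=
  ⟨Finset.coe_subset.2 (Nat.primeFactors_mono hd h.1.ne_zero),
    Nat.prod_primeFactors_of_squarefree (h.1.squarefree_of_dvd hd)⟩

theorem all_iff {m : ℕ} (h : Class m) : AllTwists m ↔ Mt (m.primeFactors : Set ℕ) := by
  have h1 : (∀ U : Finset ℕ, (U : Set ℕ) ⊆ (m.primeFactors : Set ℕ) → TrivialTwo (∏ p ∈ U, p)) ↔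
      Mt (m.primeFactors : Set ℕ) := (classify (p4_of h)).1
  rw [← h1]
  constructor
  · intro h2 U hU
    exact h2 _ (prod_dvd h hU)
  · intro h2 d hd
    obtain ⟨h3, h4⟩ := of_dvd h hd
    have h5 := h2 d.primeFactors h3
    rwa [h4] at h5

theorem three {m : ℕ} (h : Class m) (hn : ¬ AllTwists m) :
    ∃ d : ℕ, d ∣ m ∧ d.primeFactors.card ≤ 3 ∧ ¬ TrivialTwo d := by
  have h1 : (∀ U : Finset ℕ, (U : Set ℕ) ⊆ (m.primeFactors : Set ℕ) → U.card ≤ 3 →
      TrivialTwo (∏ p ∈ U, p)) ↔ Mt (m.primeFactors : Set ℕ) := (classify (p4_of h)).2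
  rw [all_iff h, ← h1] at hn
  push Not at hn
  obtain ⟨U, hU, hc, hT⟩ := hn
  refine ⟨∏ p ∈ U, p, prod_dvd h hU, ?_, hT⟩
  rw [Nat.primeFactors_prod fun p hp => (p4_of h p (hU (Finset.mem_coe.2 hp))).1]
  exact hc

theorem rankZero_of {D : ℕ} {K : Type} [Field K] [NumberField K]
    (hfin : Finite (curve D K).toAffine.Point) {G : ℂ → ℂ} (g1 : Differentiable ℂ G)
    (g2 : ∀ s : ℂ, (3 : ℝ) / 2 < s.re → HasProd (factor (K := K) (A D) (B D) s) (G s))
    (g3 : G 1 ≠ 0) : RankZero D K := by
  have hrk : Module.finrank ℤ (curve D K).toAffine.Point = 0 := Pool.Agent.U80.MQ.finrank_fin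
  refine ⟨hfin, hrk, G, g1, g2, ?_, g3⟩
  rw [hrk]
  exact (g1.analyticAt 1).analyticOrderAt_eq_zero.2 g3

theorem roots_eq (m : ℕ) : Roots m = KT (m.primeFactors : Set ℕ) := by
  unfold Roots KT
  congr 1

theorem rank_of {m : ℕ} (h : Class m) (hA : AllTwists m) : RankConjecture m := by
  intro d hd k hk hfd
  have hM := (all_iff h).1 hA
  obtain ⟨h3, h4⟩ := of_dvd h hd
  have hN : NumberField k := { to_charZero := inferInstance, to_finiteDimensional := hfd }
  rw [roots_eq] at hk
  obtain ⟨h5, ⟨G, g1, g2, g3⟩, h6⟩ := fields (p4_of h) hM h3 k hk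
  rw [h4] at h5 g2 h6
  exact ⟨hN, rankZero_of h5 g1 (fun s hs => g2 s hs) g3, fun j x hx => h6 j x hx⟩

theorem numbers_eq (K X : ℕ) : numbers K X = Ms K 1 X := by
  ext m
  have h0 : m ∈ numbers K X ↔ m ∈ Finset.Icc 1 X ∧ Class m ∧ m.primeFactors.card = K :=
    Finset.mem_filter
  rw [mem_Ms, h0, Finset.mem_Icc]
  constructor
  · rintro ⟨h1, ⟨h2, h3⟩, h4⟩
    exact ⟨h1, h2, h4, h3, Nat.coprime_one_right m⟩
  · rintro ⟨h1, h2, h4, h3, -⟩
    exact ⟨h1, ⟨h2, h3⟩, h4⟩

theorem involutions_eq (s : ℕ) : involutions s = Iv s := by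
  unfold involutions Iv
  rw [Nat.card_eq_fintype_card, Fintype.card_subtype]

theorem share_eq (K s : ℕ) : share K s = Ps K s := by
  unfold share Ps
  rw [involutions_eq]

theorem prop_eq (K s X : ℕ) :
    proportion K (fun m => splitNumber m = s ∧ AllTwists m) X =
      (∑ m ∈ Ms K 1 X, (if Mt (m.primeFactors : Set ℕ) ∧ (m.primeFactors.filter Spl).card = s
        then (1 : ℝ) else 0)) / ((Ms K 1 X).card : ℝ) := by
  unfold proportion
  rw [numbers_eq, card_as_sum, Finset.sum_filter]
  congr 1
  refine Finset.sum_congr rfl fun m hm => ?_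
  have hc : Class m := by
    have h1 := mem_Ms.1 hm
    exact ⟨h1.2.1, h1.2.2.2.1⟩
  have h2 : (splitNumber m = s ∧ AllTwists m) ↔
      (Mt (m.primeFactors : Set ℕ) ∧ (m.primeFactors.filter Spl).card = s) := by
    rw [all_iff hc]
    exact ⟨fun h => ⟨h.2, h.1⟩, fun h => ⟨h.2, h.1⟩⟩
  by_cases h3 : splitNumber m = s ∧ AllTwists m
  · rw [if_pos h3, if_pos (h2.1 h3)]
  · rw [if_neg h3, if_neg fun h => h3 (h2.2 h)]

theorem prop_total (K X : ℕ) :
    proportion K AllTwists X =
      ∑ s ∈ Finset.range (K + 1), proportion K (fun m => splitNumber m = s ∧ AllTwists m) X := by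
  unfold proportion
  rw [← Finset.sum_div]
  congr 1
  have h1 : ∀ m ∈ (numbers K X).filter AllTwists, splitNumber m ∈ Finset.range (K + 1) := by
    intro m hm
    have h2 := (Finset.mem_filter.1 (Finset.mem_filter.1 hm).1).2.2
    have h3 : splitNumber m ≤ m.primeFactors.card := Finset.card_filter_le _ _
    rw [Finset.mem_range]
    omega
  rw [Finset.card_eq_sum_card_fiberwise h1]
  push_cast
  refine Finset.sum_congr rfl fun s _ => ?_
  congr 2
  ext m
  simp only [Finset.mem_filter]
  tauto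

theorem inv_small : involutions 0 = 1 ∧ involutions 1 = 1 ∧ involutions 2 = 2 ∧ involutions 3 = 4 := by
  have h : ∀ s c : ℕ, (@Fintype.card {σ : Equiv.Perm (Fin s) // σ * σ = 1}
      (@Subtype.fintype _ _ (fun σ => decEq (σ * σ) 1) _)) = c → involutions s = c := by
    intro s c hc
    unfold involutions
    rw [← hc]
    exact @Nat.card_eq_fintype_card _ (@Subtype.fintype _ _ (fun σ => decEq (σ * σ) 1) _)
  refine ⟨h 0 1 (by decide), h 1 1 (by decide), h 2 2 (by decide), h 3 4 (by decide)⟩

theorem total_one : total 1 = 3 / 4 := by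
  obtain ⟨h0, h1, h2, h3⟩ := inv_small
  unfold total share
  rw [Finset.sum_range_succ, Finset.sum_range_one, h0, h1]
  norm_num [Nat.choose]

theorem total_two : total 2 = 7 / 16 := by
  obtain ⟨h0, h1, h2, h3⟩ := inv_small
  unfold total share
  rw [Finset.sum_range_succ, Finset.sum_range_succ, Finset.sum_range_one, h0, h1, h2]
  norm_num [Nat.choose]

theorem total_three : total 3 = 13 / 64 := by
  obtain ⟨h0, h1, h2, h3⟩ := inv_small
  unfold total share
  rw [Finset.sum_range_succ, Finset.sum_range_succ, Finset.sum_range_succ, Finset.sum_range_one,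
    h0, h1, h2, h3]
  norm_num [Nat.choose]

theorem total_ge (K : ℕ) : (1 / 2 : ℝ) ^ K ≤ total K := by
  unfold total
  have h1 : share K 0 = (1 / 2 : ℝ) ^ K := by
    obtain ⟨h0, -⟩ := inv_small
    unfold share
    rw [h0, Nat.choose_zero_right, Nat.sub_zero, Nat.sub_self]
    simp
  rw [← h1]
  refine Finset.single_le_sum (f := fun s => share K s) (fun s _ => ?_) (Finset.mem_range.2 (by omega))
  unfold share
  positivity

end proof

/-- the rank conjecture over the multiquadratic fields `F_m`, with the exact proportions by the size of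
`m` -/
theorem result :
    (∀ m : ℕ, Class m →
      (AllTwists m → RankConjecture m) ∧
      (¬ AllTwists m → ∃ d : ℕ, d ∣ m ∧ d.primeFactors.card ≤ 3 ∧ ¬ TrivialTwo d)) ∧
    (∀ K : ℕ, 1 ≤ K →
      (∀ᶠ X : ℕ in atTop, (numbers K X).Nonempty) ∧
      (∀ s : ℕ, s ≤ K → Tendsto (fun X : ℕ =>
        proportion K (fun m => splitNumber m = s ∧ AllTwists m) X) atTop (𝓝 (share K s))) ∧
      Tendsto (fun X : ℕ => proportion K AllTwists X) atTop (𝓝 (total K)) ∧
      (1 / 2 : ℝ) ^ K ≤ total K) ∧
    total 1 = 3 / 4 ∧ total 2 = 7 / 16 ∧ total 3 = 13 / 64 := by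
  refine ⟨fun m hm => ⟨rank_of hm, three hm⟩, ?_, total_one, total_two, total_three⟩
  intro K hK
  obtain ⟨n, rfl⟩ : ∃ n, K = n + 1 := ⟨K - 1, by omega⟩
  have hs : ∀ s : ℕ, s ≤ n + 1 → Tendsto (fun X : ℕ =>
      proportion (n + 1) (fun m => splitNumber m = s ∧ AllTwists m) X) atTop (𝓝 (share (n + 1) s)) := by
    intro s hs
    have h1 := (Pool.Agent.U687.NO.match_m n s hs).2
    rw [← share_eq] at h1
    exact h1.congr fun X => (prop_eq (n + 1) s X).symm
  refine ⟨?_, hs, ?_, total_ge _⟩
  · have h1 := (Pool.Agent.U687.NO.match_m n 0 (Nat.zero_le _)).1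
    filter_upwards [h1] with X hX
    rw [numbers_eq]
    exact Finset.card_pos.1 hX
  · have h2 := tendsto_finsetSum (Finset.range (n + 1 + 1)) fun s (h : s ∈ Finset.range (n + 1 + 1)) =>
      hs s (by rw [Finset.mem_range] at h; omega)
    exact h2.congr fun X => (prop_total (n + 1) X).symm

end Pool.Agent.Results.MP_32c55d_nt.MultiquadraticFieldsBySize
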